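import Mathlib

/-!
# Zombies and Survivors: definitions
-/

namespace Pool.Agent.Zombie

open Finset

section

variable {V : Type*} [Fintype V]

open Classical in
/-- The neighbours of `u` that lie on a shortest path from `u` to `v`. -/
noncomputable def closer (G : SimpleGraph V) (v u : V) : Finset V :=
  univ.filter (fun w => G.Adj u w ∧ G.dist w v + 1 = G.dist u v)

open Classical in
/-- The probability that a zombie at `u` moves to `w` when the survivor is at `v`: uniform on the
neighbours of `u` that lie on a shortest path from `u` to `v`. -/
noncomputable def step (G : SimpleGraph V) (v u w : V) : ℝ :=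
  if w ∈ closer G v u then 1 / ((closer G v u).card : ℝ) else 0

open Classical in
/-- The optimal probability of surviving `t` rounds when the zombies are at `z 0, ..., z (k-1)`
and the survivor is at `v` (backward induction). In a round the zombies move independently, then
the survivor, seeing them, stays or moves to a neighbour. -/
noncomputable def surv (G : SimpleGraph V) {k : ℕ} : ℕ → (Fin k → V) → V → ℝ
  | 0, z, v => if ∃ i, z i = v then 0 else 1
  | t + 1, z, v => if ∃ i, z i = v then 0 else
      ∑ z' : Fin k → V, (∏ i, step G v (z i) (z' i)) *
        (if ∃ i, z' i = v then 0 else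
          ⨆ v' : {v' : V // v' = v ∨ G.Adj v v'}, surv G t z' v')

/-- The optimal probability of surviving `t` rounds against `k` zombies with independent uniform
starting positions; the survivor chooses its starting vertex after seeing them. -/
noncomputable def survStart (G : SimpleGraph V) (k t : ℕ) : ℝ :=
  (∑ z : Fin k → V, ⨆ v : V, surv G t z v) / (Fintype.card V : ℝ) ^ k

/-- The survivor's winning probability `s_k(G)`. -/
noncomputable def winProb (G : SimpleGraph V) (k : ℕ) : ℝ := ⨅ t : ℕ, survStart G k t

/-- The zombie number `z(G)`: the least `k` with `s_k(G) ≤ 1/2`. -/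
noncomputable def zombieNumber (G : SimpleGraph V) : ℕ := sInf {k | winProb G k ≤ 1 / 2}

end

/-- The toroidal grid `C_n □ C_n` (for `n ≥ 3`). -/
def torus (n : ℕ) : SimpleGraph (ZMod n × ZMod n) :=
  SimpleGraph.fromRel (fun x y => y = x + (1, 0) ∨ y = x + (0, 1))

end Pool.Agent.Zombie
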