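import Mathlib

/-!
# The planar flow: a lower bound for the number of starting points that catch a given path
-/

namespace Pool.Agent.Zombie

open Finset

/-! ### Box sums -/

/-- `∑_{|a| ≤ M} f a`. -/
noncomputable def bs (M : ℕ) (f : ℤ → ℝ) : ℝ := ∑ a ∈ Icc (-(M : ℤ)) M, f a

theorem bs_zero (f : ℤ → ℝ) : bs 0 f = f 0 := by simp [bs]

theorem bs_succ (M : ℕ) (f : ℤ → ℝ) :
    bs (M + 1) f = bs M f + f (M + 1) + f (-((M : ℤ) + 1)) := by
  unfold bs
  have h : Icc (-((M + 1 : ℕ) : ℤ)) ((M + 1 : ℕ) : ℤ) =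
      insert ((M : ℤ) + 1) (insert (-((M : ℤ) + 1)) (Icc (-(M : ℤ)) M)) := by
    ext a
    simp only [mem_Icc, mem_insert]
    push_cast
    omega
  rw [h, Finset.sum_insert, Finset.sum_insert]
  · ring
  · simp only [mem_Icc, not_and, not_le]
    intro h
    omega
  · simp only [mem_Icc, mem_insert, not_or, not_and, not_le]
    constructor
    · omega
    · intro _
      omega

theorem bs_mono {M : ℕ} {f g : ℤ → ℝ} (h : ∀ a, f a ≤ g a) : bs M f ≤ bs M g :=
  Finset.sum_le_sum (fun a _ => h a)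

theorem bs_nonneg {M : ℕ} {f : ℤ → ℝ} (h : ∀ a, 0 ≤ f a) : 0 ≤ bs M f :=
  Finset.sum_nonneg (fun a _ => h a)

theorem bs_add (M : ℕ) (f g : ℤ → ℝ) : bs M (fun a => f a + g a) = bs M f + bs M g :=
  Finset.sum_add_distrib

theorem bs_half (M : ℕ) (f : ℤ → ℝ) : bs M (fun a => f a / 2) = bs M f / 2 := by
  unfold bs
  rw [Finset.sum_div]

theorem bs_shift {M : ℕ} {f : ℤ → ℝ} (hf : ∀ a, 0 ≤ f a) {s : ℤ} (hs : |s| ≤ 1) :
    bs M f ≤ bs (M + 1) (fun a => f (a - s)) := by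
  rw [abs_le] at hs
  unfold bs
  have h1 : ∑ a ∈ Icc (-(M : ℤ)) M, f a =
      ∑ a ∈ (Icc (-(M : ℤ)) M).image (fun a => a + s), f (a - s) := by
    rw [Finset.sum_image (fun a _ b _ h => by simpa using h)]
    refine Finset.sum_congr rfl (fun a _ => ?_)
    simp
  rw [h1]
  refine Finset.sum_le_sum_of_subset_of_nonneg ?_ (fun a _ _ => hf _)
  intro a ha
  obtain ⟨b, hb, rfl⟩ := Finset.mem_image.1 ha
  rw [mem_Icc] at hb ⊢
  push_cast
  omega

/-- The sum over `0 < |a| ≤ M`. -/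
noncomputable def bz (M : ℕ) (f : ℤ → ℝ) : ℝ := bs M (fun a => if a = 0 then 0 else f a)

theorem bs_eq_bz (M : ℕ) (f : ℤ → ℝ) : bs M f = f 0 + bz M f := by
  induction M with
  | zero => simp [bz, bs_zero]
  | succ M ih =>
    unfold bz at ih ⊢
    rw [bs_succ, bs_succ, ih]
    have h1 : ((M : ℤ) + 1) ≠ 0 := by omega
    have h2 : (-((M : ℤ) + 1)) ≠ 0 := by omega
    simp only [h1, h2, if_false]
    ring

theorem bz_mono_fun {M : ℕ} {f g : ℤ → ℝ} (h : ∀ a, a ≠ 0 → f a ≤ g a) : bz M f ≤ bz M g := by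
  unfold bz
  apply bs_mono
  intro a
  by_cases ha : a = 0
  · simp [ha]
  · simp [ha, h a ha]

theorem bz_congr {M : ℕ} {f g : ℤ → ℝ} (h : ∀ a, a ≠ 0 → f a = g a) : bz M f = bz M g := by
  unfold bz
  congr 1
  funext a
  by_cases ha : a = 0
  · simp [ha]
  · simp [ha, h a ha]

theorem bz_succ_ge {M : ℕ} {f : ℤ → ℝ} (hf : ∀ a, 0 ≤ f a) : bz M f ≤ bz (M + 1) f := by
  have h1 := bs_eq_bz M f
  have h2 := bs_eq_bz (M + 1) f
  have h3 := bs_succ M f
  have h4 := hf (M + 1)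
  have h5 := hf (-((M : ℤ) + 1))
  linarith

theorem bz_add (M : ℕ) (f g : ℤ → ℝ) : bz M (fun a => f a + g a) = bz M f + bz M g := by
  unfold bz
  rw [← bs_add]
  congr 1
  funext a
  by_cases ha : a = 0
  · simp [ha]
  · simp [ha]

theorem bz_half (M : ℕ) (f : ℤ → ℝ) : bz M (fun a => f a / 2) = bz M f / 2 := by
  unfold bz
  rw [← bs_half]
  congr 1
  funext a
  by_cases ha : a = 0
  · simp [ha]
  · simp [ha]

theorem bz_sign (M : ℕ) (f : ℤ → ℝ) : bz (M + 1) (fun a => f (a - a.sign)) = bs M f + f 0 := by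
  induction M with
  | zero =>
    unfold bz
    rw [bs_succ, bs_zero, bs_zero]
    norm_num
  | succ M ih =>
    unfold bz at ih ⊢
    rw [bs_succ (M + 1), ih, bs_succ M]
    have h1 : ((M + 1 : ℕ) : ℤ) + 1 ≠ 0 := by omega
    have h2 : (-(((M + 1 : ℕ) : ℤ) + 1)) ≠ 0 := by omega
    simp only [h1, h2, if_false]
    have h3 : (((M + 1 : ℕ) : ℤ) + 1).sign = 1 := Int.sign_eq_one_of_pos (by omega)
    have h4 : (-(((M + 1 : ℕ) : ℤ) + 1)).sign = -1 := Int.sign_eq_neg_one_of_neg (by omega)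
    rw [h3, h4]
    have h5 : ((M + 1 : ℕ) : ℤ) + 1 - 1 = (M : ℤ) + 1 := by push_cast; ring
    have h6 : -(((M + 1 : ℕ) : ℤ) + 1) - -1 = -((M : ℤ) + 1) := by push_cast; ring
    rw [h5, h6]
    ring

/-! ### The planar operator -/

/-- Displacements of the five moves of the survivor. -/
def dx : Fin 5 → ℤ := ![1, -1, 0, 0, 0]

/-- Displacements of the five moves of the survivor. -/
def dy : Fin 5 → ℤ := ![0, 0, 1, -1, 0]

theorem dx_le (m : Fin 5) : |dx m| ≤ 1 := by fin_cases m <;> simp [dx]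

theorem dy_le (m : Fin 5) : |dy m| ≤ 1 := by fin_cases m <;> simp [dy]

theorem dxdy_le (m : Fin 5) : (dx m).natAbs + (dy m).natAbs ≤ 1 := by
  fin_cases m <;> simp [dx, dy]

/-- The average of `g` over the two (or one) neighbours of `(a, b)` closer to the origin. -/
noncomputable def avg (g : ℤ → ℤ → ℝ) (a b : ℤ) : ℝ :=
  if a = 0 then (if b = 0 then 1 else g 0 (b - b.sign)) else
    (if b = 0 then g (a - a.sign) 0 else (g (a - a.sign) b + g a (b - b.sign)) / 2)

/-- `h` seen from the new position of the survivor, and `1` at the old position. -/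
noncomputable def shf (h : ℤ → ℤ → ℝ) (m : Fin 5) (a b : ℤ) : ℝ :=
  if a = 0 ∧ b = 0 then 1 else h (a - dx m) (b - dy m)

/-- `H γ a b`: the probability that a zombie at offset `(a, b)` catches the survivor who follows
the moves `γ` (in the plane). -/
noncomputable def H : List (Fin 5) → ℤ → ℤ → ℝ
  | [] => fun a b => if a = 0 ∧ b = 0 then 1 else 0
  | m :: γ => avg (shf (H γ) m)

theorem avg_mem {g : ℤ → ℤ → ℝ} (hg : ∀ a b, 0 ≤ g a b ∧ g a b ≤ 1) (a b : ℤ) :
    0 ≤ avg g a b ∧ avg g a b ≤ 1 := by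
  unfold avg
  split_ifs
  · norm_num
  · exact hg _ _
  · exact hg _ _
  · have h1 := hg (a - a.sign) b
    have h2 := hg a (b - b.sign)
    constructor <;> linarith [h1.1, h1.2, h2.1, h2.2]

theorem shf_mem {h : ℤ → ℤ → ℝ} (hh : ∀ a b, 0 ≤ h a b ∧ h a b ≤ 1) (m : Fin 5) (a b : ℤ) :
    0 ≤ shf h m a b ∧ shf h m a b ≤ 1 := by
  unfold shf
  split_ifs
  · norm_num
  · exact hh _ _

theorem H_mem (γ : List (Fin 5)) : ∀ a b, 0 ≤ H γ a b ∧ H γ a b ≤ 1 := by
  induction γ with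
  | nil =>
    intro a b
    unfold H
    split_ifs <;> norm_num
  | cons m γ ih =>
    intro a b
    exact avg_mem (shf_mem ih m) a b

theorem shf_ge {h : ℤ → ℤ → ℝ} (hh : ∀ a b, 0 ≤ h a b ∧ h a b ≤ 1) (m : Fin 5) (a b : ℤ) :
    h (a - dx m) (b - dy m) ≤ shf h m a b := by
  unfold shf
  split_ifs
  · exact (hh _ _).2
  · exact le_refl _

/-- Double box sum. -/
noncomputable def SS (M : ℕ) (g : ℤ → ℤ → ℝ) : ℝ := bs M (fun a => bs M (fun b => g a b))

theorem avg_zero_left (g : ℤ → ℤ → ℝ) {b : ℤ} (hb : b ≠ 0) : avg g 0 b = g 0 (b - b.sign) := by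
  simp [avg, hb]

theorem avg_zero_right (g : ℤ → ℤ → ℝ) {a : ℤ} (ha : a ≠ 0) : avg g a 0 = g (a - a.sign) 0 := by
  simp [avg, ha]

theorem avg_ne (g : ℤ → ℤ → ℝ) {a b : ℤ} (ha : a ≠ 0) (hb : b ≠ 0) :
    avg g a b = g (a - a.sign) b / 2 + g a (b - b.sign) / 2 := by
  simp only [avg, ha, hb, if_false]
  ring

theorem avg_zero_zero (g : ℤ → ℤ → ℝ) : avg g 0 0 = 1 := by simp [avg]

/-- Rows at height `b ≠ 0`. -/
theorem row_ne {M : ℕ} {g : ℤ → ℤ → ℝ} (hg : ∀ a b, 0 ≤ g a b) {b : ℤ} (hb : b ≠ 0) :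
    bs M (fun a => g a b) / 2 + bs M (fun a => g a (b - b.sign)) / 2 ≤
      bs (M + 1) (fun a => avg g a b) := by
  rw [bs_eq_bz (M + 1)]
  have h1 : bz (M + 1) (fun a => avg g a b) =
      bz (M + 1) (fun a => g (a - a.sign) b) / 2 +
        bz (M + 1) (fun a => g a (b - b.sign)) / 2 := by
    rw [← bz_half, ← bz_half, ← bz_add]
    exact bz_congr (fun a ha => avg_ne g ha hb)
  rw [h1, avg_zero_left g hb, bz_sign M (fun a => g a b)]
  have h2 := bz_succ_ge (M := M) (f := fun a => g a (b - b.sign)) (fun a => hg _ _)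
  have h3 := bs_eq_bz M (fun a => g a (b - b.sign))
  have h4 := hg 0 b
  have h5 := hg 0 (b - b.sign)
  linarith

/-- The row at height `0`. -/
theorem row_zero {M : ℕ} {g : ℤ → ℤ → ℝ} (h0 : g 0 0 = 1) :
    bs (M + 1) (fun a => avg g a 0) = 2 + bs M (fun a => g a 0) := by
  rw [bs_eq_bz (M + 1), avg_zero_zero,
    bz_congr (fun a ha => avg_zero_right g ha), bz_sign M (fun a => g a 0), h0]
  ring

/-- Columns. -/
theorem avg_swap (g : ℤ → ℤ → ℝ) (a b : ℤ) :
    avg (fun x y => g y x) a b = avg g b a := by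
  unfold avg
  by_cases ha : a = 0 <;> by_cases hb : b = 0 <;> simp [ha, hb, add_comm]

theorem total {M : ℕ} {g : ℤ → ℤ → ℝ} (hg : ∀ a b, 0 ≤ g a b) (h0 : g 0 0 = 1) :
    2 + SS M g + bs M (fun a => g a 0) + bs M (fun b => g 0 b) ≤ SS (M + 1) (avg g) := by
  unfold SS
  rw [bs_eq_bz (M + 1) (fun a => bs (M + 1) (fun b => avg g a b))]
  -- the column `a = 0`
  have hcol : bs (M + 1) (fun b => avg g 0 b) = 2 + bs M (fun b => g 0 b) := by
    have := row_zero (M := M) (g := fun x y => g y x) h0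
    simp only [avg_swap] at this
    exact this
  -- the columns `a ≠ 0`
  have hne : ∀ a : ℤ, a ≠ 0 → bs (M + 1) (fun b => avg g a b) =
      g (a - a.sign) 0 + bz (M + 1) (fun b => g (a - a.sign) b) / 2 +
        (bs M (fun b => g a b) / 2 + g a 0 / 2) := by
    intro a ha
    rw [bs_eq_bz (M + 1), avg_zero_right g ha,
      bz_congr (fun b hb => avg_ne g ha hb), bz_add, bz_half, bz_half,
      bz_sign M (fun b => g a b)]
    ring
  rw [bz_congr hne, bz_add, bz_add, bz_add, bz_half, bz_half, bz_half,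
    bz_sign M (fun a => g a 0), bz_sign M (fun a => bz (M + 1) (fun b => g a b)), hcol]
  have e1 : bs M (fun a => bz M (fun b => g a b)) ≤
      bs M (fun a => bz (M + 1) (fun b => g a b)) :=
    bs_mono (fun a => bz_succ_ge (fun b => hg a b))
  have e2 : bz M (fun b => g 0 b) ≤ bz (M + 1) (fun b => g 0 b) :=
    bz_succ_ge (fun b => hg 0 b)
  have e3 : bz M (fun a => bs M (fun b => g a b)) ≤
      bz (M + 1) (fun a => bs M (fun b => g a b)) :=
    bz_succ_ge (fun a => bs_nonneg (fun b => hg a b))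
  have e4 : bz M (fun a => g a 0) ≤ bz (M + 1) (fun a => g a 0) :=
    bz_succ_ge (fun a => hg a 0)
  have f1 : bs M (fun a => bs M (fun b => g a b)) =
      bs M (fun a => g a 0) + bs M (fun a => bz M (fun b => g a b)) := by
    rw [← bs_add]
    congr 1
    funext a
    exact bs_eq_bz M _
  have f2 := bs_eq_bz M (fun b => g 0 b)
  have f3 := bs_eq_bz M (fun a => bs M (fun b => g a b))
  have f4 := bs_eq_bz M (fun a => g a 0)
  linarith

end Pool.Agent.Zombie
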