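import Mathlib
import Pool.Agent.Zombie.Plane

/-!
# The planar flow: the total is at least `T^{3/2} / 4`
-/

namespace Pool.Agent.Zombie

open Finset

/-! ### The mean distance of a simple random walk from a point -/

/-- `E |W_L - w|` for the simple random walk `W` on `ℤ`. -/
noncomputable def kk : ℕ → ℝ → ℝ
  | 0, w => |w|
  | L + 1, w => (kk L (w - 1) + kk L (w + 1)) / 2

theorem kk_succ (L : ℕ) (w : ℝ) : kk (L + 1) w = (kk L (w - 1) + kk L (w + 1)) / 2 := rfl

theorem kk_even (L : ℕ) : ∀ w, kk L (-w) = kk L w := by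
  induction L with
  | zero => intro w; simp [kk]
  | succ L ih =>
    intro w
    rw [kk_succ, kk_succ]
    have h1 : -w - 1 = -(w + 1) := by ring
    have h2 : -w + 1 = -(w - 1) := by ring
    rw [h1, h2, ih, ih]
    ring

theorem kk_lip (L : ℕ) : ∀ w d, 0 ≤ d → kk L (w + d) ≤ kk L w + d := by
  induction L with
  | zero =>
    intro w d hd
    have := abs_add_le w d
    simp only [kk]
    rw [abs_of_nonneg hd] at this
    exact this
  | succ L ih =>
    intro w d hd
    rw [kk_succ, kk_succ]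
    have h1 := ih (w - 1) d hd
    have h2 := ih (w + 1) d hd
    have e1 : w + d - 1 = w - 1 + d := by ring
    have e2 : w + d + 1 = w + 1 + d := by ring
    rw [e1, e2]
    linarith

theorem kk_lip' (L : ℕ) (w d : ℝ) (hd : 0 ≤ d) : kk L (w - d) ≤ kk L w + d := by
  have h := kk_lip L (-w) d hd
  rw [kk_even L w] at h
  have e : -w + d = -(w - d) := by ring
  rwa [e, kk_even] at h

theorem kk_mid (L : ℕ) : ∀ w d, 2 * kk L w ≤ kk L (w - d) + kk L (w + d) := by
  induction L with
  | zero =>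
    intro w d
    simp only [kk]
    have h : |(w - d) + (w + d)| ≤ |w - d| + |w + d| := abs_add_le _ _
    have e : (w - d) + (w + d) = 2 * w := by ring
    rw [e, abs_mul] at h
    norm_num at h
    exact h
  | succ L ih =>
    intro w d
    rw [kk_succ, kk_succ, kk_succ]
    have h1 := ih (w - 1) d
    have h2 := ih (w + 1) d
    have e1 : w - 1 - d = w - d - 1 := by ring
    have e2 : w - 1 + d = w + d - 1 := by ring
    have e3 : w + 1 - d = w - d + 1 := by ring
    have e4 : w + 1 + d = w + d + 1 := by ring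
    rw [e1, e2] at h1
    rw [e3, e4] at h2
    linarith

theorem kk_ge_zero (L : ℕ) (w : ℝ) : kk L 0 ≤ kk L w := by
  have h := kk_mid L 0 w
  rw [zero_sub, zero_add, kk_even] at h
  linarith

theorem kk_poly (r : ℝ) (hr : 0 < r) (L : ℕ) : ∀ w : ℝ,
    (5 / 2) * (r ^ 2 * (w ^ 2 + L) - (w ^ 4 + 6 * L * w ^ 2 + 3 * L ^ 2 - 2 * L)) ≤
      r ^ 3 * kk L w := by
  induction L with
  | zero =>
    intro w
    simp only [kk]
    have hy : 0 ≤ |w| := abs_nonneg w
    have h2 : w ^ 2 = |w| ^ 2 := (sq_abs w).symm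
    have h4 : w ^ 4 = |w| ^ 4 := by
      have : w ^ 4 = (w ^ 2) ^ 2 := by ring
      rw [this, h2]
      ring
    rw [h2, h4]
    generalize |w| = y at *
    have h5 : 0 ≤ (y - 0.58 * r) ^ 2 * (y + 1.16 * r) :=
      mul_nonneg (sq_nonneg _) (by positivity)
    have h6 : (5 / 2 : ℝ) * (y * r ^ 2 - y ^ 3) ≤ r ^ 3 := by
      have h7 : 0 ≤ y * r ^ 2 := by positivity
      have h8 : 0 < r ^ 3 := by positivity
      nlinarith
    have h7 : y * ((5 / 2 : ℝ) * (y * r ^ 2 - y ^ 3)) ≤ y * r ^ 3 :=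
      mul_le_mul_of_nonneg_left h6 hy
    push_cast
    nlinarith
  | succ L ih =>
    intro w
    rw [kk_succ]
    have h1 := ih (w - 1)
    have h2 := ih (w + 1)
    push_cast
    nlinarith

theorem kk_zero_ge {s : ℝ} (hs : 0 < s) {L : ℕ} (hL : (L : ℝ) ≤ s ^ 2) :
    (L : ℝ) / s ≤ 2 * kk L 0 := by
  have h := kk_poly (3 * s) (by positivity) L 0
  have hL0 : (0 : ℝ) ≤ L := Nat.cast_nonneg L
  rw [div_le_iff₀ hs]
  have h1 : (15 : ℝ) * s ^ 2 * L ≤ 27 * s ^ 3 * kk L 0 := by nlinarith
  have h2 : (27 : ℝ) * s ^ 2 * L ≤ 27 * s ^ 2 * (2 * kk L 0 * s) := by nlinarith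
  have h3 : (0 : ℝ) < 27 * s ^ 2 := by positivity
  exact le_of_mul_le_mul_left h2 h3

/-- `4 E (Bin(L, 1/2) - u)_+`. -/
noncomputable def Gn (L : ℕ) (u : ℝ) : ℝ := kk L (2 * u - L) + L - 2 * u

theorem Gn_anti (L : ℕ) {u u' : ℝ} (h : u ≤ u') : Gn L u' ≤ Gn L u := by
  unfold Gn
  have := kk_lip L (2 * u - L) (2 * (u' - u)) (by linarith)
  have e : 2 * u - L + 2 * (u' - u) = 2 * u' - L := by ring
  rw [e] at this
  linarith

theorem Gn_succ (L : ℕ) (u : ℝ) : Gn (L + 1) u = (Gn L u + Gn L (u - 1)) / 2 := by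
  unfold Gn
  rw [kk_succ]
  have e1 : 2 * u - ((L + 1 : ℕ) : ℝ) - 1 = 2 * (u - 1) - L := by push_cast; ring
  have e2 : 2 * u - ((L + 1 : ℕ) : ℝ) + 1 = 2 * u - L := by push_cast; ring
  rw [e1, e2]
  push_cast
  ring

theorem Gn_pred (L : ℕ) (u : ℝ) : Gn L (u - 1) ≤ Gn L u + 4 := by
  unfold Gn
  have := kk_lip' L (2 * u - L) 2 (by norm_num)
  have e : 2 * u - L - 2 = 2 * (u - 1) - L := by ring
  rw [e] at this
  linarith

theorem Gn_add (L : ℕ) {p q : ℝ} (h : p + q ≤ L + 1) : 2 * kk L 0 - 2 ≤ Gn L p + Gn L q := by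
  unfold Gn
  have h1 := kk_ge_zero L (2 * p - L)
  have h2 := kk_ge_zero L (2 * q - L)
  linarith

/-! ### Row and column bounds -/

/-- Number of vertical moves. -/
def nv (γ : List (Fin 5)) : ℕ := (γ.map (fun m => (dy m).natAbs)).sum

/-- Number of horizontal moves. -/
def nh (γ : List (Fin 5)) : ℕ := (γ.map (fun m => (dx m).natAbs)).sum

theorem nv_add_nh (γ : List (Fin 5)) : nv γ + nh γ ≤ γ.length := by
  induction γ with
  | nil => simp [nv, nh]
  | cons m γ ih =>
    unfold nv nh at ih ⊢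
    simp only [List.map_cons, List.sum_cons, List.length_cons]
    have := dxdy_le m
    omega

theorem shf_nonneg (γ : List (Fin 5)) (m : Fin 5) (a b : ℤ) : 0 ≤ shf (H γ) m a b :=
  (shf_mem (H_mem γ) m a b).1

theorem row_shift (γ : List (Fin 5)) (m : Fin 5) (M : ℕ) (b : ℤ) :
    bs M (fun a => H γ a (b - dy m)) ≤ bs (M + 1) (fun a => shf (H γ) m a b) := by
  calc bs M (fun a => H γ a (b - dy m))
      ≤ bs (M + 1) (fun a => H γ (a - dx m) (b - dy m)) :=
        bs_shift (f := fun a => H γ a (b - dy m)) (fun a => (H_mem γ _ _).1) (dx_le m)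
    _ ≤ _ := bs_mono (fun a => shf_ge (H_mem γ) m a b)

theorem row_bound (γ : List (Fin 5)) : ∀ b : ℤ,
    Gn γ.length ((nv γ : ℝ) + |(b : ℝ)|) ≤ bs (2 * γ.length) (fun a => H γ a b) := by
  induction γ with
  | nil =>
    intro b
    have h : Gn ([] : List (Fin 5)).length ((nv [] : ℝ) + |(b : ℝ)|) = 0 := by
      simp [Gn, nv, kk]
    rw [h]
    exact bs_nonneg (fun a => (H_mem _ _ _).1)
  | cons m γ ih =>
    intro b
    have hlen : (m :: γ).length = γ.length + 1 := rfl
    have hnv : (nv (m :: γ) : ℝ) = (nv γ : ℝ) + |(dy m : ℝ)| := by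
      unfold nv
      simp only [List.map_cons, List.sum_cons]
      push_cast
      rw [Nat.cast_natAbs]
      push_cast
      ring
    rw [hlen]
    set L := γ.length with hL
    have hstep : ∀ b' : ℤ, Gn L ((nv γ : ℝ) + |((b' - dy m : ℤ) : ℝ)|) ≤
        bs (2 * L + 1) (fun a => shf (H γ) m a b') := fun b' =>
      le_trans (ih (b' - dy m)) (row_shift γ m (2 * L) b')
    have h2 : 2 * (L + 1) = 2 * L + 1 + 1 := by ring
    rw [h2]
    have hH : (fun a => H (m :: γ) a b) = (fun a => avg (shf (H γ) m) a b) := rfl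
    rw [hH]
    have habs : |((b - dy m : ℤ) : ℝ)| ≤ |(b : ℝ)| + |(dy m : ℝ)| := by
      push_cast
      exact abs_sub _ _
    by_cases hb : b = 0
    · subst hb
      rw [row_zero (by simp [shf])]
      have h3 := hstep 0
      have h4 : Gn L ((nv (m :: γ) : ℝ) + |((0 : ℤ) : ℝ)|) ≤
          Gn L ((nv γ : ℝ) + |(((0 : ℤ) - dy m : ℤ) : ℝ)|) := by
        apply Gn_anti
        rw [hnv]
        linarith
      rw [Gn_succ]
      have h5 := Gn_pred L ((nv (m :: γ) : ℝ) + |((0 : ℤ) : ℝ)|)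
      have key : ∀ x y z : ℝ, x ≤ z → y ≤ x + 4 → (x + y) / 2 ≤ 2 + z := by
        intro x y z h1 h2
        linarith
      exact key _ _ _ (h4.trans h3) h5
    · refine le_trans ?_ (row_ne (fun a b => shf_nonneg γ m a b) hb)
      have h3 := hstep b
      have h4 := hstep (b - b.sign)
      have h5 : Gn L ((nv (m :: γ) : ℝ) + |(b : ℝ)|) ≤
          Gn L ((nv γ : ℝ) + |((b - dy m : ℤ) : ℝ)|) := by
        apply Gn_anti
        rw [hnv]
        linarith
      have habs2 : |((b - b.sign - dy m : ℤ) : ℝ)| ≤ |(b : ℝ)| - 1 + |(dy m : ℝ)| := by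
        have h6 : |((b - b.sign : ℤ) : ℝ)| = |(b : ℝ)| - 1 := by
          rcases lt_or_gt_of_ne hb with h | h
          · rw [Int.sign_eq_neg_one_of_neg h]
            have hb1 : b ≤ -1 := by omega
            have hbR : (b : ℝ) ≤ -1 := by exact_mod_cast hb1
            push_cast
            rw [abs_of_nonpos (by linarith), abs_of_nonpos (by linarith)]
            ring
          · rw [Int.sign_eq_one_of_pos h]
            have hb1 : 1 ≤ b := by omega
            have hbR : (1 : ℝ) ≤ b := by exact_mod_cast hb1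
            push_cast
            rw [abs_of_nonneg (by linarith), abs_of_nonneg (by linarith)]
        calc |((b - b.sign - dy m : ℤ) : ℝ)|
            = |((b - b.sign : ℤ) : ℝ) - (dy m : ℝ)| := by push_cast; rfl
          _ ≤ |((b - b.sign : ℤ) : ℝ)| + |(dy m : ℝ)| := abs_sub _ _
          _ = _ := by rw [h6]
      have h7 : Gn L ((nv (m :: γ) : ℝ) + |(b : ℝ)| - 1) ≤
          Gn L ((nv γ : ℝ) + |((b - b.sign - dy m : ℤ) : ℝ)|) := by
        apply Gn_anti
        rw [hnv]
        linarith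
      rw [Gn_succ]
      linarith

/-! ### Swapping the coordinates -/

/-- Swap of the two coordinate directions. -/
def sw : Fin 5 → Fin 5 := ![2, 3, 0, 1, 4]

theorem dx_sw (m : Fin 5) : dx (sw m) = dy m := by fin_cases m <;> rfl

theorem dy_sw (m : Fin 5) : dy (sw m) = dx m := by fin_cases m <;> rfl

theorem H_swap (γ : List (Fin 5)) : ∀ a b, H (γ.map sw) a b = H γ b a := by
  induction γ with
  | nil =>
    intro a b
    simp only [List.map_nil, H]
    by_cases ha : a = 0 <;> by_cases hb : b = 0 <;> simp [ha, hb]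
  | cons m γ ih =>
    intro a b
    have h1 : shf (H (γ.map sw)) (sw m) = fun x y => shf (H γ) m y x := by
      funext x y
      unfold shf
      rw [dx_sw, dy_sw, ih]
      by_cases hx : x = 0 <;> by_cases hy : y = 0 <;> simp [hx, hy]
    change avg (shf (H (γ.map sw)) (sw m)) a b = avg (shf (H γ) m) b a
    rw [h1, avg_swap]

theorem nv_sw (γ : List (Fin 5)) : nv (γ.map sw) = nh γ := by
  unfold nv nh
  rw [List.map_map]
  congr 1
  apply List.map_congr_left
  intro m _
  simp [dy_sw]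

theorem col_bound (γ : List (Fin 5)) (a : ℤ) :
    Gn γ.length ((nh γ : ℝ) + |(a : ℝ)|) ≤ bs (2 * γ.length) (fun b => H γ a b) := by
  have h := row_bound (γ.map sw) a
  rw [List.length_map, nv_sw] at h
  simp only [H_swap] at h
  exact h

/-! ### The total -/

theorem SS_shift (γ : List (Fin 5)) (m : Fin 5) (M : ℕ) :
    SS M (H γ) ≤ SS (M + 1) (shf (H γ) m) := by
  unfold SS
  calc bs M (fun a => bs M (fun b => H γ a b))
      ≤ bs (M + 1) (fun a => bs M (fun b => H γ (a - dx m) b)) :=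
        bs_shift (f := fun a => bs M (fun b => H γ a b))
          (fun a => bs_nonneg (fun b => (H_mem γ _ _).1)) (dx_le m)
    _ ≤ bs (M + 1) (fun a => bs (M + 1) (fun b => H γ (a - dx m) (b - dy m))) :=
        bs_mono (fun a => bs_shift (f := fun b => H γ (a - dx m) b)
          (fun b => (H_mem γ _ _).1) (dy_le m))
    _ ≤ _ := bs_mono (fun a => bs_mono (fun b => shf_ge (H_mem γ) m a b))

theorem col_shift (γ : List (Fin 5)) (m : Fin 5) (M : ℕ) (a : ℤ) :
    bs M (fun b => H γ (a - dx m) b) ≤ bs (M + 1) (fun b => shf (H γ) m a b) := by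
  calc bs M (fun b => H γ (a - dx m) b)
      ≤ bs (M + 1) (fun b => H γ (a - dx m) (b - dy m)) :=
        bs_shift (f := fun b => H γ (a - dx m) b) (fun b => (H_mem γ _ _).1) (dy_le m)
    _ ≤ _ := bs_mono (fun b => shf_ge (H_mem γ) m a b)

theorem SS_bound {s : ℝ} (hs : 0 < s) (γ : List (Fin 5)) (hγ : (γ.length : ℝ) ≤ s ^ 2) :
    1 + (γ.length : ℝ) * (γ.length - 1) / (2 * s) ≤ SS (2 * γ.length) (H γ) := by
  induction γ with
  | nil => simp [SS, bs_zero, H]
  | cons m γ ih =>
    have hlen : (m :: γ).length = γ.length + 1 := rfl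
    rw [hlen] at hγ ⊢
    have hγ' : (γ.length : ℝ) ≤ s ^ 2 := by
      push_cast at hγ
      linarith
    have h1 := ih hγ'
    set L := γ.length with hL
    have h2 : 2 * (L + 1) = 2 * L + 1 + 1 := by ring
    rw [h2]
    have hH : H (m :: γ) = avg (shf (H γ) m) := rfl
    rw [hH]
    have h3 := total (M := 2 * L + 1) (g := shf (H γ) m) (fun a b => shf_nonneg γ m a b)
      (by simp [shf])
    have h4 := SS_shift γ m (2 * L)
    have h5 := row_shift γ m (2 * L) 0
    have h6 := col_shift γ m (2 * L) 0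
    have h7 := row_bound γ (0 - dy m)
    have h8 := col_bound γ (0 - dx m)
    have h9 : 2 * kk L 0 - 2 ≤ Gn L ((nv γ : ℝ) + |((0 - dy m : ℤ) : ℝ)|) +
        Gn L ((nh γ : ℝ) + |((0 - dx m : ℤ) : ℝ)|) := by
      apply Gn_add
      have h10 := nv_add_nh γ
      have h11 := dxdy_le m
      have h12 : ((nv γ + nh γ : ℕ) : ℝ) ≤ L := by exact_mod_cast h10
      have h13 : (((dx m).natAbs + (dy m).natAbs : ℕ) : ℝ) ≤ 1 := by exact_mod_cast h11
      push_cast at h12 h13 ⊢
      rw [zero_sub, zero_sub, abs_neg, abs_neg]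
      rw [Nat.cast_natAbs, Nat.cast_natAbs] at h13
      push_cast at h13
      linarith
    have h10 := kk_zero_ge hs hγ'
    have h11 : 1 + ((L + 1 : ℕ) : ℝ) * (((L + 1 : ℕ) : ℝ) - 1) / (2 * s) =
        (1 + (L : ℝ) * (L - 1) / (2 * s)) + (L : ℝ) / s := by
      push_cast
      field_simp
      ring
    rw [h11]
    linarith

/-- For a path of length `T`, the total is at least `T √T / 4`. -/
theorem SS_final (γ : List (Fin 5)) :
    (γ.length : ℝ) * Real.sqrt γ.length / 4 ≤ SS (2 * γ.length) (H γ) := by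
  rcases Nat.eq_zero_or_pos γ.length with h | h
  · rw [h]
    simp only [Nat.cast_zero, zero_mul, zero_div]
    exact bs_nonneg (fun a => bs_nonneg (fun b => (H_mem γ _ _).1))
  · have hT : (1 : ℝ) ≤ γ.length := by exact_mod_cast h
    have hs : 0 < Real.sqrt γ.length := Real.sqrt_pos.2 (by linarith)
    have hsq : Real.sqrt γ.length ^ 2 = γ.length := Real.sq_sqrt (by linarith)
    have h1 := SS_bound hs γ hsq.ge
    refine le_trans ?_ h1
    generalize Real.sqrt γ.length = s at *
    generalize (γ.length : ℝ) = T at *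
    subst hsq
    have h2 : s ^ 2 * (s ^ 2 - 1) / (2 * s) = s * (s ^ 2 - 1) / 2 := by
      field_simp
    rw [h2]
    have h3 : 1 ≤ s := by nlinarith
    nlinarith [mul_nonneg hs.le (sq_nonneg (s - 1)), sq_nonneg (s - 1)]

end Pool.Agent.Zombie
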