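import Mathlib
import Pool.Agent.Zombie.Defs
import Pool.Agent.Zombie.Plane
import Pool.Agent.Zombie.Plane2

/-!
# The toroidal grid: distances, and the moves of a zombie near the survivor
-/

namespace Pool.Agent.Zombie

open Finset

/-- The cyclic norm on the torus. -/
def nrm {n : ℕ} (x : ZMod n × ZMod n) : ℕ := x.1.valMinAbs.natAbs + x.2.valMinAbs.natAbs

/-- The vector with integer coordinates `a`, `b`. -/
def vec (n : ℕ) (a b : ℤ) : ZMod n × ZMod n := ((a : ZMod n), (b : ZMod n))

theorem vec_sub (n : ℕ) (a b a' b' : ℤ) : vec n a b - vec n a' b' = vec n (a - a') (b - b') := by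
  simp [vec]

theorem vec_add (n : ℕ) (a b a' b' : ℤ) : vec n a b + vec n a' b' = vec n (a + a') (b + b') := by
  simp [vec]

theorem vec_zero (n : ℕ) : vec n 0 0 = 0 := by simp [vec]

theorem vec_valMinAbs {n : ℕ} [NeZero n] (x : ZMod n × ZMod n) :
    vec n x.1.valMinAbs x.2.valMinAbs = x := by
  simp [vec, ZMod.coe_valMinAbs]

section

variable {n : ℕ} [NeZero n]

theorem cyc_lift {a : ℤ} (h : 2 * |a| < n) : ((a : ZMod n)).valMinAbs = a := by
  rw [ZMod.valMinAbs_spec]
  refine ⟨rfl, ?_⟩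
  rw [Set.mem_Ioc]
  have h1 := abs_lt.1 (lt_of_le_of_lt (le_refl |a|) (by omega : |a| < |a| + 1))
  have h2 := le_abs_self a
  have h3 := neg_abs_le a
  omega

omit [NeZero n] in
theorem cyc_far {a s : ℤ} (h : 2 * |a| < n) (hs : s = 1 ∨ s = -1) (hsa : 0 ≤ s * a)
    (hn : 3 ≤ n) : (((a + s : ℤ) : ZMod n)).valMinAbs.natAbs + 1 ≠ a.natAbs := by
  intro hcon
  set c := (((a + s : ℤ) : ZMod n)).valMinAbs with hc
  have h1 : ((a + s : ℤ) : ZMod n) = ((c : ℤ) : ZMod n) := (ZMod.coe_valMinAbs _).symm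
  have h2 : (n : ℤ) ∣ (a + s) - c := by
    have := (ZMod.intCast_eq_intCast_iff_dvd_sub c (a + s) n).1 h1.symm
    exact this
  have h5 : |a| = (a.natAbs : ℤ) := Int.abs_eq_natAbs a
  have h3 : |(a + s) - c| < n := by
    rcases hs with rfl | rfl <;> rw [abs_lt] <;> omega
  have h4 := Int.eq_zero_of_abs_lt_dvd h2 h3
  rcases hs with rfl | rfl <;> omega

theorem cyc_near {a : ℤ} (h : 2 * |a| < n) (ha : a ≠ 0) :
    (((a - a.sign : ℤ) : ZMod n)).valMinAbs.natAbs + 1 = a.natAbs := by
  have h1 : 2 * |a - a.sign| < n := by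
    rcases lt_or_gt_of_ne ha with h2 | h2
    · rw [Int.sign_eq_neg_one_of_neg h2]
      rw [abs_of_neg h2] at h
      rw [abs_of_nonpos (by omega)]
      omega
    · rw [Int.sign_eq_one_of_pos h2]
      rw [abs_of_pos h2] at h
      rw [abs_of_nonneg (by omega)]
      omega
  rw [cyc_lift h1]
  rcases lt_or_gt_of_ne ha with h2 | h2
  · rw [Int.sign_eq_neg_one_of_neg h2]
    omega
  · rw [Int.sign_eq_one_of_pos h2]
    omega

theorem nrm_vec {a b : ℤ} (ha : 2 * |a| < n) (hb : 2 * |b| < n) :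
    nrm (vec n a b) = a.natAbs + b.natAbs := by
  unfold nrm vec
  rw [cyc_lift ha, cyc_lift hb]

theorem torus_adj (hn : 3 ≤ n) {x y : ZMod n × ZMod n} : (torus n).Adj x y ↔
    y = x + vec n 1 0 ∨ y = x + vec n (-1) 0 ∨ y = x + vec n 0 1 ∨ y = x + vec n 0 (-1) := by
  have h10 : (1 : ZMod n) ≠ 0 := by
    intro h
    have h1 := cyc_lift (n := n) (a := 1) (by simp; omega)
    rw [Int.cast_one, h, ZMod.valMinAbs_zero] at h1
    omega
  unfold torus
  rw [SimpleGraph.fromRel_adj]
  obtain ⟨x1, x2⟩ := x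
  obtain ⟨y1, y2⟩ := y
  simp only [vec, Prod.mk_add_mk, Prod.mk.injEq, ne_eq, Int.cast_one, Int.cast_zero,
    Int.cast_neg, add_zero]
  constructor
  · rintro ⟨_, (⟨h1, h2⟩ | ⟨h1, h2⟩) | (⟨h1, h2⟩ | ⟨h1, h2⟩)⟩
    · exact Or.inl ⟨h1, h2⟩
    · exact Or.inr (Or.inr (Or.inl ⟨h1, h2⟩))
    · refine Or.inr (Or.inl ⟨?_, h2.symm⟩)
      rw [h1]
      ring
    · refine Or.inr (Or.inr (Or.inr ⟨h1.symm, ?_⟩))
      rw [h2]
      ring
  · rintro (⟨h1, h2⟩ | ⟨h1, h2⟩ | ⟨h1, h2⟩ | ⟨h1, h2⟩)
    · refine ⟨?_, Or.inl (Or.inl ⟨h1, h2⟩)⟩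
      rintro ⟨h3, _⟩
      rw [← h3] at h1
      exact h10 (by simpa using h1.symm)
    · refine ⟨?_, Or.inr (Or.inl ⟨?_, h2.symm⟩)⟩
      · rintro ⟨h3, _⟩
        rw [← h3] at h1
        exact h10 (by simpa using h1.symm)
      · rw [h1]
        ring
    · refine ⟨?_, Or.inl (Or.inr ⟨h1, h2⟩)⟩
      rintro ⟨_, h3⟩
      rw [← h3] at h2
      exact h10 (by simpa using h2.symm)
    · refine ⟨?_, Or.inr (Or.inr ⟨h1.symm, ?_⟩)⟩
      · rintro ⟨_, h3⟩
        rw [← h3] at h2
        exact h10 (by simpa using h2.symm)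
      · rw [h2]
        ring

omit [NeZero n] in
theorem nrm_add_le (x y : ZMod n × ZMod n) : nrm (x + y) ≤ nrm x + nrm y := by
  unfold nrm
  have h1 := ZMod.natAbs_valMinAbs_add_le x.1 y.1
  have h2 := ZMod.natAbs_valMinAbs_add_le x.2 y.2
  have h3 := Int.natAbs_add_le x.1.valMinAbs y.1.valMinAbs
  have h4 := Int.natAbs_add_le x.2.valMinAbs y.2.valMinAbs
  rw [Prod.fst_add, Prod.snd_add]
  omega

theorem nrm_adj (hn : 3 ≤ n) {x y : ZMod n × ZMod n} (h : (torus n).Adj x y) :
    nrm (x - y) ≤ 1 := by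
  have e : ∀ s t : ℤ, y = x + vec n s t → x - y = vec n (-s) (-t) := by
    intro s t h
    have : x - (x + vec n s t) = -(vec n s t) := by abel
    rw [h, this]
    simp [vec]
  rcases (torus_adj hn).1 h with h | h | h | h <;> rw [e _ _ h] <;>
    rw [nrm_vec (by simp <;> omega) (by simp <;> omega)] <;> simp

theorem nrm_le_length (hn : 3 ≤ n) {u v : ZMod n × ZMod n} (p : (torus n).Walk u v) :
    nrm (u - v) ≤ p.length := by
  induction p with
  | nil => simp [nrm]
  | @cons a b c h p ih =>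
    rw [SimpleGraph.Walk.length_cons]
    have h1 := nrm_adj hn h
    have h2 := nrm_add_le (a - b) (b - c)
    have e : a - b + (b - c) = a - c := by abel
    rw [e] at h2
    omega

theorem exists_closer (hn : 3 ≤ n) {u v : ZMod n × ZMod n} (huv : nrm (u - v) ≠ 0) :
    ∃ w, (torus n).Adj u w ∧ nrm (w - v) + 1 = nrm (u - v) := by
  set a := (u - v).1.valMinAbs with ha
  set b := (u - v).2.valMinAbs with hb
  have hu : u - v = vec n a b := (vec_valMinAbs (u - v)).symm
  have hab : nrm (u - v) = a.natAbs + b.natAbs := rfl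
  have ha2 := ZMod.valMinAbs_mem_Ioc (u - v).1
  have hb2 := ZMod.valMinAbs_mem_Ioc (u - v).2
  rw [← ha, Set.mem_Ioc] at ha2
  rw [← hb, Set.mem_Ioc] at hb2
  by_cases ha0 : a = 0
  · have hb0 : b ≠ 0 := by
      intro h
      rw [hab, ha0, h] at huv
      exact huv rfl
    refine ⟨u + vec n 0 (-b.sign), ?_, ?_⟩
    · rw [torus_adj hn]
      rcases lt_or_gt_of_ne hb0 with h | h
      · rw [Int.sign_eq_neg_one_of_neg h]
        exact Or.inr (Or.inr (Or.inl rfl))
      · rw [Int.sign_eq_one_of_pos h]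
        exact Or.inr (Or.inr (Or.inr rfl))
    · have e : u + vec n 0 (-b.sign) - v = vec n a (b - b.sign) := by
        have : u + vec n 0 (-b.sign) - v = (u - v) + vec n 0 (-b.sign) := by abel
        rw [this, hu, vec_add, add_zero, sub_eq_add_neg]
      rw [e, hab]
      rcases lt_or_gt_of_ne hb0 with h | h
      · rw [Int.sign_eq_neg_one_of_neg h, nrm_vec (by rw [ha0]; simp; omega)
          (by rw [abs_of_nonpos (by omega)]; omega)]
        omega
      · rw [Int.sign_eq_one_of_pos h, nrm_vec (by rw [ha0]; simp; omega)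
          (by rw [abs_of_nonneg (by omega)]; omega)]
        omega
  · refine ⟨u + vec n (-a.sign) 0, ?_, ?_⟩
    · rw [torus_adj hn]
      rcases lt_or_gt_of_ne ha0 with h | h
      · rw [Int.sign_eq_neg_one_of_neg h]
        exact Or.inl rfl
      · rw [Int.sign_eq_one_of_pos h]
        exact Or.inr (Or.inl rfl)
    · have e : u + vec n (-a.sign) 0 - v = vec n (a - a.sign) b := by
        have : u + vec n (-a.sign) 0 - v = (u - v) + vec n (-a.sign) 0 := by abel
        rw [this, hu, vec_add, add_zero, sub_eq_add_neg]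
      rw [e, hab]
      have e2 : nrm (vec n (a - a.sign) b) =
          (((a - a.sign : ℤ) : ZMod n)).valMinAbs.natAbs + b.natAbs := by
        unfold nrm vec
        have : ((b : ℤ) : ZMod n) = (u - v).2 := by rw [hb, ZMod.coe_valMinAbs]
        simp only [this]
        rfl
      rw [e2]
      have e3 : 2 * |a - a.sign| < n := by
        rcases lt_or_gt_of_ne ha0 with h | h
        · rw [Int.sign_eq_neg_one_of_neg h, abs_of_nonpos (by omega)]
          omega
        · rw [Int.sign_eq_one_of_pos h, abs_of_nonneg (by omega)]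
          omega
      rw [cyc_lift e3]
      rcases lt_or_gt_of_ne ha0 with h | h
      · rw [Int.sign_eq_neg_one_of_neg h]
        omega
      · rw [Int.sign_eq_one_of_pos h]
        omega

theorem exists_walk (hn : 3 ≤ n) (v : ZMod n × ZMod n) : ∀ (m : ℕ) (u : ZMod n × ZMod n),
    nrm (u - v) = m → ∃ p : (torus n).Walk u v, p.length = m := by
  intro m
  induction m with
  | zero =>
    intro u hu
    unfold nrm at hu
    have h1 : (u - v).1.valMinAbs = 0 := by omega
    have h2 : (u - v).2.valMinAbs = 0 := by omega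
    rw [ZMod.valMinAbs_eq_zero] at h1 h2
    have h3 : u = v := by
      have : u - v = 0 := Prod.ext h1 h2
      exact sub_eq_zero.1 this
    subst h3
    exact ⟨SimpleGraph.Walk.nil, rfl⟩
  | succ m ih =>
    intro u hu
    obtain ⟨w, hw1, hw2⟩ := exists_closer hn (u := u) (v := v) (by omega)
    obtain ⟨p, hp⟩ := ih w (by omega)
    exact ⟨SimpleGraph.Walk.cons hw1 p, by rw [SimpleGraph.Walk.length_cons, hp]⟩

theorem torus_dist (hn : 3 ≤ n) (u v : ZMod n × ZMod n) : (torus n).dist u v = nrm (u - v) := by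
  obtain ⟨p, hp⟩ := exists_walk hn v _ u rfl
  apply le_antisymm
  · rw [← hp]
    exact SimpleGraph.dist_le p
  · obtain ⟨p', hp'⟩ := (SimpleGraph.Walk.reachable p).exists_walk_length_eq_dist
    rw [← hp']
    exact nrm_le_length hn p'

theorem mem_closer (hn : 3 ≤ n) (v : ZMod n × ZMod n) {a b : ℤ} (ha : 2 * |a| < n)
    (hb : 2 * |b| < n) (w : ZMod n × ZMod n) : w ∈ closer (torus n) v (v + vec n a b) ↔
      (a ≠ 0 ∧ w = v + vec n (a - a.sign) b) ∨ (b ≠ 0 ∧ w = v + vec n a (b - b.sign)) := by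
  classical
  unfold closer
  rw [mem_filter, torus_dist hn, torus_dist hn]
  have e0 : v + vec n a b - v = vec n a b := by abel
  rw [e0, nrm_vec ha hb]
  simp only [mem_univ, true_and]
  have key1 : ∀ s : ℤ, nrm (v + vec n (a + s) b - v) =
      (((a + s : ℤ) : ZMod n)).valMinAbs.natAbs + b.natAbs := by
    intro s
    have : v + vec n (a + s) b - v = vec n (a + s) b := by abel
    rw [this]
    unfold nrm vec
    rw [cyc_lift hb]
  have key2 : ∀ s : ℤ, nrm (v + vec n a (b + s) - v) =
      a.natAbs + (((b + s : ℤ) : ZMod n)).valMinAbs.natAbs := by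
    intro s
    have : v + vec n a (b + s) - v = vec n a (b + s) := by abel
    rw [this]
    unfold nrm vec
    rw [cyc_lift ha]
  constructor
  · rintro ⟨h1, h2⟩
    rw [torus_adj hn] at h1
    rcases h1 with h1 | h1 | h1 | h1
    · rw [add_assoc, vec_add, add_zero] at h1
      rw [h1, key1] at h2
      by_cases h3 : 0 ≤ 1 * a
      · exact absurd (by omega) (cyc_far ha (Or.inl rfl) h3 hn)
      · left
        refine ⟨by omega, ?_⟩
        rw [h1, Int.sign_eq_neg_one_of_neg (by omega), sub_neg_eq_add]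
    · rw [add_assoc, vec_add, add_zero] at h1
      rw [h1, key1] at h2
      by_cases h3 : 0 ≤ (-1) * a
      · exact absurd (by omega) (cyc_far ha (Or.inr rfl) h3 hn)
      · left
        refine ⟨by omega, ?_⟩
        rw [h1, Int.sign_eq_one_of_pos (by omega), sub_eq_add_neg]
    · rw [add_assoc, vec_add, add_zero] at h1
      rw [h1, key2] at h2
      by_cases h3 : 0 ≤ 1 * b
      · exact absurd (by omega) (cyc_far hb (Or.inl rfl) h3 hn)
      · right
        refine ⟨by omega, ?_⟩
        rw [h1, Int.sign_eq_neg_one_of_neg (by omega), sub_neg_eq_add]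
    · rw [add_assoc, vec_add, add_zero] at h1
      rw [h1, key2] at h2
      by_cases h3 : 0 ≤ (-1) * b
      · exact absurd (by omega) (cyc_far hb (Or.inr rfl) h3 hn)
      · right
        refine ⟨by omega, ?_⟩
        rw [h1, Int.sign_eq_one_of_pos (by omega), sub_eq_add_neg]
  · rintro (⟨h1, h2⟩ | ⟨h1, h2⟩)
    · have h3 := cyc_near ha h1
      constructor
      · rw [torus_adj hn, h2]
        simp only [add_assoc, vec_add, add_zero]
        rcases lt_or_gt_of_ne h1 with h | h
        · rw [Int.sign_eq_neg_one_of_neg h, sub_neg_eq_add]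
          exact Or.inl rfl
        · rw [Int.sign_eq_one_of_pos h, sub_eq_add_neg]
          exact Or.inr (Or.inl rfl)
      · rw [h2]
        have h4 := key1 (-a.sign)
        rw [← sub_eq_add_neg] at h4
        rw [h4]
        omega
    · have h3 := cyc_near hb h1
      constructor
      · rw [torus_adj hn, h2]
        simp only [add_assoc, vec_add, add_zero]
        rcases lt_or_gt_of_ne h1 with h | h
        · rw [Int.sign_eq_neg_one_of_neg h, sub_neg_eq_add]
          exact Or.inr (Or.inr (Or.inl rfl))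
        · rw [Int.sign_eq_one_of_pos h, sub_eq_add_neg]
          exact Or.inr (Or.inr (Or.inr rfl))
      · rw [h2]
        have h4 := key2 (-b.sign)
        rw [← sub_eq_add_neg] at h4
        rw [h4]
        omega

end

end Pool.Agent.Zombie
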