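import Mathlib
import Pool.Agent.Zombie.Defs
import Pool.Agent.Zombie.Plane
import Pool.Agent.Zombie.Plane2
import Pool.Agent.Zombie.Torus

/-!
# The union bound over the paths of the survivor
-/

namespace Pool.Agent.Zombie

open Finset

/-! ### General facts on one step of a zombie -/

section

variable {V : Type*} [Fintype V]

theorem step_nonneg (G : SimpleGraph V) (v u w : V) : 0 ≤ step G v u w := by
  unfold step
  split_ifs
  · positivity
  · exact le_refl _

theorem sum_step (G : SimpleGraph V) (v u : V) (f : V → ℝ) :
    ∑ w, step G v u w * f w = (∑ w ∈ closer G v u, f w) / ((closer G v u).card : ℝ) := by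
  classical
  unfold step
  rw [Finset.sum_div]
  rw [← Finset.sum_subset (Finset.subset_univ (closer G v u))]
  · refine Finset.sum_congr rfl (fun w hw => ?_)
    rw [if_pos hw]
    ring
  · intro w _ hw
    rw [if_neg hw, zero_mul]

theorem sum_step_le (G : SimpleGraph V) (v u : V) {f : V → ℝ} (hf : ∀ w, f w ≤ 1)
    (hf0 : ∀ w, 0 ≤ f w) : 0 ≤ ∑ w, step G v u w * f w ∧ ∑ w, step G v u w * f w ≤ 1 := by
  rw [sum_step]
  constructor
  · exact div_nonneg (Finset.sum_nonneg (fun w _ => hf0 w)) (Nat.cast_nonneg _)
  · apply div_le_one_of_le₀ _ (Nat.cast_nonneg _)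
    calc ∑ w ∈ closer G v u, f w ≤ ∑ _w ∈ closer G v u, (1 : ℝ) :=
          Finset.sum_le_sum (fun w _ => hf w)
      _ = _ := by simp

theorem surv_nonneg (G : SimpleGraph V) {k : ℕ} : ∀ (t : ℕ) (z : Fin k → V) (v : V),
    0 ≤ surv G t z v := by
  intro t
  induction t with
  | zero =>
    intro z v
    unfold surv
    split_ifs <;> norm_num
  | succ t ih =>
    intro z v
    unfold surv
    split_ifs
    · exact le_refl _
    · refine Finset.sum_nonneg (fun z' _ => mul_nonneg
        (Finset.prod_nonneg (fun i _ => step_nonneg G _ _ _)) ?_)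
      split_ifs
      · exact le_refl _
      · exact Real.iSup_nonneg (fun v' => ih z' v')

end

/-! ### One zombie against a fixed path -/

/-- The displacement of a move on the torus. -/
def dl (n : ℕ) (m : Fin 5) : ZMod n × ZMod n := vec n (dx m) (dy m)

open Classical in
/-- The probability that a zombie at `u` does not catch the survivor who starts at `v` and
follows the moves `γ`. -/
noncomputable def q (n : ℕ) [NeZero n] :
    List (Fin 5) → ZMod n × ZMod n → ZMod n × ZMod n → ℝ
  | [], v, u => if u = v then 0 else 1
  | m :: γ, v, u => if u = v then 0 else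
      ∑ w, step (torus n) v u w * (if w = v then 0 else q n γ (v + dl n m) w)

theorem q_mem {n : ℕ} [NeZero n] (γ : List (Fin 5)) : ∀ v u, 0 ≤ q n γ v u ∧ q n γ v u ≤ 1 := by
  induction γ with
  | nil =>
    intro v u
    unfold q
    split_ifs <;> norm_num
  | cons m γ ih =>
    intro v u
    unfold q
    split_ifs
    · norm_num
    · apply sum_step_le
      · intro w
        split_ifs
        · norm_num
        · exact (ih _ _).2
      · intro w
        split_ifs
        · norm_num
        · exact (ih _ _).1

theorem vec_ne_zero {n : ℕ} [NeZero n] {a b : ℤ} (ha : 2 * |a| < n) (hb : 2 * |b| < n)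
    (h : ¬ (a = 0 ∧ b = 0)) : vec n a b ≠ 0 := by
  intro hcon
  apply h
  have h1 : (a : ZMod n) = 0 := congrArg Prod.fst hcon
  have h2 : (b : ZMod n) = 0 := congrArg Prod.snd hcon
  have h3 := cyc_lift ha
  have h4 := cyc_lift hb
  rw [h1, ZMod.valMinAbs_zero] at h3
  rw [h2, ZMod.valMinAbs_zero] at h4
  exact ⟨h3.symm, h4.symm⟩

theorem abs_sub_sign_le (a : ℤ) : |a - a.sign| ≤ |a| := by
  rcases lt_trichotomy a 0 with h | h | h
  · rw [Int.sign_eq_neg_one_of_neg h, abs_of_nonpos (by omega), abs_of_nonpos (by omega)]
    omega
  · subst h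
    simp
  · rw [Int.sign_eq_one_of_pos h, abs_of_nonneg (by omega), abs_of_nonneg (by omega)]
    omega

theorem link {n : ℕ} [NeZero n] (hn : 3 ≤ n) (γ : List (Fin 5)) :
    ∀ (v : ZMod n × ZMod n) (a b : ℤ), 2 * (|a| + γ.length) < n → 2 * (|b| + γ.length) < n →
      q n γ v (v + vec n a b) ≤ 1 - H γ a b := by
  classical
  induction γ with
  | nil =>
    intro v a b _ _
    by_cases h : a = 0 ∧ b = 0
    · rw [h.1, h.2, vec_zero, add_zero]
      simp [q, H]
    · have := (q_mem (n := n) [] v (v + vec n a b)).2
      simp only [H, h, if_false]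
      linarith
  | cons m γ ih =>
    intro v a b ha hb
    rw [List.length_cons] at ha hb
    push_cast at ha hb
    have hlen : (0 : ℤ) ≤ γ.length := by positivity
    have ha' : 2 * |a| < n := by omega
    have hb' : 2 * |b| < n := by omega
    by_cases h : a = 0 ∧ b = 0
    · rw [h.1, h.2, vec_zero, add_zero]
      simp [q, H, avg]
    · have hne : v + vec n a b ≠ v := by
        intro hcon
        exact vec_ne_zero ha' hb' h (by simpa using hcon)
      set r : ZMod n × ZMod n → ℝ := fun w => if w = v then 0 else q n γ (v + dl n m) w with hr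
      have hq : q n (m :: γ) v (v + vec n a b) = (∑ w ∈ closer (torus n) v (v + vec n a b), r w) /
          ((closer (torus n) v (v + vec n a b)).card : ℝ) := by
        rw [← sum_step]
        unfold q
        rw [if_neg hne]
      -- the bound for one vertex
      have key : ∀ a' b' : ℤ, |a'| ≤ |a| → |b'| ≤ |b| →
          r (v + vec n a' b') ≤ 1 - shf (H γ) m a' b' := by
        intro a' b' h1 h2
        by_cases h3 : a' = 0 ∧ b' = 0
        · rw [h3.1, h3.2, vec_zero, add_zero]
          simp [hr, shf]
        · have h4 : v + vec n a' b' ≠ v := by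
            intro hcon
            exact vec_ne_zero (n := n) (a := a') (b := b') (by omega) (by omega) h3
              (by simpa using hcon)
          have h5 : v + vec n a' b' = (v + dl n m) + vec n (a' - dx m) (b' - dy m) := by
            unfold dl
            rw [add_assoc, vec_add]
            congr 2 <;> ring
          have h6 : |a' - dx m| ≤ |a'| + 1 := (abs_sub _ _).trans (by linarith [dx_le m])
          have h7 : |b' - dy m| ≤ |b'| + 1 := (abs_sub _ _).trans (by linarith [dy_le m])
          have h8 := ih (v + dl n m) (a' - dx m) (b' - dy m) (by omega) (by omega)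
          simp only [hr, if_neg h4, shf, if_neg h3]
          rw [h5]
          exact h8
      have hH : H (m :: γ) a b = avg (shf (H γ) m) a b := rfl
      rw [hq, hH]
      have hsa := abs_sub_sign_le a
      have hsb := abs_sub_sign_le b
      by_cases ha0 : a = 0
      · have hb0 : b ≠ 0 := fun hb0 => h ⟨ha0, hb0⟩
        have hc : closer (torus n) v (v + vec n a b) = {v + vec n a (b - b.sign)} := by
          ext w
          rw [mem_closer hn v ha' hb' w, mem_singleton]
          constructor
          · rintro (h1 | h1)
            · exact absurd ha0 h1.1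
            · exact h1.2
          · intro h1
            exact Or.inr ⟨hb0, h1⟩
        rw [hc, Finset.sum_singleton, Finset.card_singleton, Nat.cast_one, div_one]
        have h1 := key a (b - b.sign) (le_refl _) hsb
        rw [ha0] at h1 ⊢
        rw [avg_zero_left _ hb0]
        exact h1
      · by_cases hb0 : b = 0
        · have hc : closer (torus n) v (v + vec n a b) = {v + vec n (a - a.sign) b} := by
            ext w
            rw [mem_closer hn v ha' hb' w, mem_singleton]
            constructor
            · rintro (h1 | h1)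
              · exact h1.2
              · exact absurd hb0 h1.1
            · intro h1
              exact Or.inl ⟨ha0, h1⟩
          rw [hc, Finset.sum_singleton, Finset.card_singleton, Nat.cast_one, div_one]
          have h1 := key (a - a.sign) b hsa (le_refl _)
          rw [hb0] at h1 ⊢
          rw [avg_zero_right _ ha0]
          exact h1
        · have hc : closer (torus n) v (v + vec n a b) =
              {v + vec n (a - a.sign) b, v + vec n a (b - b.sign)} := by
            ext w
            rw [mem_closer hn v ha' hb' w, mem_insert, mem_singleton]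
            constructor
            · rintro (h1 | h1)
              · exact Or.inl h1.2
              · exact Or.inr h1.2
            · rintro (h1 | h1)
              · exact Or.inl ⟨ha0, h1⟩
              · exact Or.inr ⟨hb0, h1⟩
          have hne2 : v + vec n (a - a.sign) b ≠ v + vec n a (b - b.sign) := by
            intro hcon
            have h1 : vec n (a - a.sign) b = vec n a (b - b.sign) := by simpa using hcon
            have h2 : (((a - a.sign : ℤ)) : ZMod n) = ((a : ℤ) : ZMod n) :=
              congrArg Prod.fst h1
            have h3 := cyc_lift (n := n) (a := a - a.sign) (by omega)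
            have h4 := cyc_lift ha'
            rw [h2, h4] at h3
            have h5 : a.sign = 0 := by omega
            exact ha0 (Int.sign_eq_zero_iff_zero.1 h5)
          rw [hc, Finset.sum_pair hne2, Finset.card_pair hne2, avg_ne _ ha0 hb0]
          have h1 := key (a - a.sign) b hsa (le_refl _)
          have h2 := key a (b - b.sign) (le_refl _) hsb
          push_cast
          linarith

/-- The total survival probability over all starting points of the zombie. -/
theorem sum_q_le {n : ℕ} [NeZero n] (hn : 3 ≤ n) (γ : List (Fin 5)) (hγ : 6 * γ.length < n)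
    (v : ZMod n × ZMod n) :
    ∑ u, q n γ v u ≤ (n : ℝ) ^ 2 - SS (2 * γ.length) (H γ) := by
  classical
  set T := γ.length with hT
  set box : Finset (ℤ × ℤ) := Icc (-((2 * T : ℕ) : ℤ)) ((2 * T : ℕ) : ℤ) ×ˢ
    Icc (-((2 * T : ℕ) : ℤ)) ((2 * T : ℕ) : ℤ) with hbox
  have hmem : ∀ p ∈ box, |p.1| ≤ 2 * T ∧ |p.2| ≤ 2 * T := by
    intro p hp
    rw [hbox, mem_product, mem_Icc, mem_Icc] at hp
    rw [abs_le, abs_le]
    push_cast at hp
    omega
  have hSS : SS (2 * T) (H γ) = ∑ p ∈ box, H γ p.1 p.2 := by
    unfold SS bs
    rw [hbox, Finset.sum_product]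
  have hinj : Set.InjOn (fun p : ℤ × ℤ => v + vec n p.1 p.2) (box : Set (ℤ × ℤ)) := by
    intro p hp p' hp' he
    have h1 := hmem p hp
    have h2 := hmem p' hp'
    have he' : vec n p.1 p.2 = vec n p'.1 p'.2 := by simpa using he
    have e1 : ((p.1 : ℤ) : ZMod n) = ((p'.1 : ℤ) : ZMod n) := congrArg Prod.fst he'
    have e2 : ((p.2 : ℤ) : ZMod n) = ((p'.2 : ℤ) : ZMod n) := congrArg Prod.snd he'
    have c1 := cyc_lift (n := n) (a := p.1) (by omega)
    have c2 := cyc_lift (n := n) (a := p.2) (by omega)
    have c3 := cyc_lift (n := n) (a := p'.1) (by omega)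
    have c4 := cyc_lift (n := n) (a := p'.2) (by omega)
    rw [e1, c3] at c1
    rw [e2, c4] at c2
    exact Prod.ext c1.symm c2.symm
  have h1 : SS (2 * T) (H γ) ≤ ∑ u, (1 - q n γ v u) := by
    rw [hSS]
    calc ∑ p ∈ box, H γ p.1 p.2 ≤ ∑ p ∈ box, (1 - q n γ v (v + vec n p.1 p.2)) := by
          refine Finset.sum_le_sum (fun p hp => ?_)
          have h2 := hmem p hp
          have h3 := link hn γ v p.1 p.2 (by omega) (by omega)
          linarith
      _ = ∑ u ∈ box.image (fun p : ℤ × ℤ => v + vec n p.1 p.2), (1 - q n γ v u) := by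
          rw [Finset.sum_image hinj]
      _ ≤ ∑ u, (1 - q n γ v u) :=
          Finset.sum_le_sum_of_subset_of_nonneg (Finset.subset_univ _)
            (fun u _ _ => by linarith [(q_mem (n := n) γ v u).2])
  rw [Finset.sum_sub_distrib] at h1
  have h2 : ∑ _u : ZMod n × ZMod n, (1 : ℝ) = (n : ℝ) ^ 2 := by
    rw [Finset.sum_const, Finset.card_univ, Fintype.card_prod, ZMod.card, nsmul_eq_mul]
    push_cast
    ring
  rw [h2] at h1
  linarith

/-! ### The union bound -/

theorem surv_le {n : ℕ} [NeZero n] (hn : 3 ≤ n) {k : ℕ} : ∀ (t : ℕ)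
    (z : Fin k → ZMod n × ZMod n) (v : ZMod n × ZMod n),
    surv (torus n) t z v ≤ ∑ γ : Fin t → Fin 5, ∏ i, q n (List.ofFn γ) v (z i) := by
  classical
  intro t
  induction t with
  | zero =>
    intro z v
    unfold surv
    have h0 : ∑ γ : Fin 0 → Fin 5, ∏ i, q n (List.ofFn γ) v (z i) = ∏ i, q n [] v (z i) := by
      rw [Fintype.sum_unique]
      simp
    rw [h0]
    split_ifs with h
    · exact Finset.prod_nonneg (fun i _ => (q_mem _ _ _).1)
    · have : ∏ i, q n [] v (z i) = 1 := by
        apply Finset.prod_eq_one
        intro i _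
        unfold q
        rw [if_neg (fun hcon => h ⟨i, hcon⟩)]
      rw [this]
  | succ t ih =>
    intro z v
    unfold surv
    split_ifs with h
    · exact Finset.sum_nonneg (fun γ _ => Finset.prod_nonneg (fun i _ => (q_mem _ _ _).1))
    · -- bound the bracket
      set r : Fin 5 → (Fin t → Fin 5) → ZMod n × ZMod n → ℝ := fun m γ w =>
        if w = v then 0 else q n (List.ofFn γ) (v + dl n m) w with hr
      have hr0 : ∀ m γ w, 0 ≤ r m γ w := by
        intro m γ w
        simp only [hr]
        split_ifs
        · exact le_refl _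
        · exact (q_mem _ _ _).1
      have hbr : ∀ z' : Fin k → ZMod n × ZMod n,
          (if ∃ i, z' i = v then (0 : ℝ) else
            ⨆ v' : {v' : ZMod n × ZMod n // v' = v ∨ (torus n).Adj v v'},
              surv (torus n) t z' v') ≤ ∑ m : Fin 5, ∑ γ : Fin t → Fin 5, ∏ i, r m γ (z' i) := by
        intro z'
        split_ifs with h1
        · exact Finset.sum_nonneg (fun m _ => Finset.sum_nonneg (fun γ _ =>
            Finset.prod_nonneg (fun i _ => hr0 _ _ _)))
        · have h2 : ∀ m γ, ∏ i, r m γ (z' i) = ∏ i, q n (List.ofFn γ) (v + dl n m) (z' i) := by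
            intro m γ
            refine Finset.prod_congr rfl (fun i _ => ?_)
            simp only [hr]
            rw [if_neg (fun hcon => h1 ⟨i, hcon⟩)]
          have : Nonempty {v' : ZMod n × ZMod n // v' = v ∨ (torus n).Adj v v'} :=
            ⟨⟨v, Or.inl rfl⟩⟩
          apply ciSup_le
          rintro ⟨v', hv'⟩
          have h3 : ∃ m : Fin 5, v' = v + dl n m := by
            rcases hv' with h4 | h4
            · refine ⟨4, ?_⟩
              rw [h4]
              simp [dl, dx, dy, vec]
            · rcases (torus_adj hn).1 h4 with h5 | h5 | h5 | h5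
              · exact ⟨0, h5⟩
              · exact ⟨1, h5⟩
              · exact ⟨2, h5⟩
              · exact ⟨3, h5⟩
          obtain ⟨m, rfl⟩ := h3
          refine le_trans (ih z' (v + dl n m)) ?_
          have h5 : ∑ γ : Fin t → Fin 5, ∏ i, q n (List.ofFn γ) (v + dl n m) (z' i) =
              ∑ γ : Fin t → Fin 5, ∏ i, r m γ (z' i) :=
            Finset.sum_congr rfl (fun γ _ => (h2 m γ).symm)
          rw [h5]
          exact Finset.single_le_sum (f := fun m => ∑ γ : Fin t → Fin 5, ∏ i, r m γ (z' i))
            (fun m _ => Finset.sum_nonneg (fun γ _ =>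
              Finset.prod_nonneg (fun i _ => hr0 _ _ _))) (Finset.mem_univ m)
      have hfin : ∑ z' : Fin k → ZMod n × ZMod n, (∏ i, step (torus n) v (z i) (z' i)) *
            ∑ m : Fin 5, ∑ γ : Fin t → Fin 5, ∏ i, r m γ (z' i) =
          ∑ γ : Fin (t + 1) → Fin 5, ∏ i, q n (List.ofFn γ) v (z i) := by
        calc ∑ z' : Fin k → ZMod n × ZMod n, (∏ i, step (torus n) v (z i) (z' i)) *
            ∑ m : Fin 5, ∑ γ : Fin t → Fin 5, ∏ i, r m γ (z' i)
          _ = ∑ m : Fin 5, ∑ γ : Fin t → Fin 5, ∑ z' : Fin k → ZMod n × ZMod n,
                ∏ i, (step (torus n) v (z i) (z' i) * r m γ (z' i)) := by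
              simp only [Finset.mul_sum, Finset.prod_mul_distrib]
              rw [Finset.sum_comm]
              refine Finset.sum_congr rfl (fun m _ => ?_)
              rw [Finset.sum_comm]
          _ = ∑ m : Fin 5, ∑ γ : Fin t → Fin 5, ∏ i, q n (m :: List.ofFn γ) v (z i) := by
              refine Finset.sum_congr rfl (fun m _ => Finset.sum_congr rfl (fun γ _ => ?_))
              have h6 : ∏ i, q n (m :: List.ofFn γ) v (z i) =
                  ∏ i, ∑ w, step (torus n) v (z i) w * r m γ w := by
                refine Finset.prod_congr rfl (fun i _ => ?_)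
                rw [q, if_neg (fun hcon => h ⟨i, hcon⟩)]
              rw [h6, Finset.prod_univ_sum, Fintype.piFinset_univ]
          _ = ∑ γ : Fin (t + 1) → Fin 5, ∏ i, q n (List.ofFn γ) v (z i) := by
              rw [← Fintype.sum_prod_type']
              refine Fintype.sum_equiv (Fin.consEquiv (fun _ => Fin 5)) _ _ ?_
              rintro ⟨m, γ⟩
              have : List.ofFn (Fin.cons m γ : Fin (t + 1) → Fin 5) = m :: List.ofFn γ := by
                rw [List.ofFn_succ]
                simp
              change _ = ∏ i, q n (List.ofFn (Fin.cons m γ : Fin (t + 1) → Fin 5)) v (z i)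
              rw [this]
      rw [← hfin]
      refine Finset.sum_le_sum (fun z' _ => mul_le_mul_of_nonneg_left ?_
        (Finset.prod_nonneg (fun i _ => step_nonneg _ _ _ _)))
      have h7 := hbr z'
      refine le_trans (le_of_eq ?_) h7
      by_cases h8 : ∃ i, z' i = v
      · rw [if_pos h8, if_pos h8]
      · rw [if_neg h8, if_neg h8]

end Pool.Agent.Zombie
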