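import Mathlib
import Pool.Agent.Zombie.Defs
import Pool.Agent.Zombie.Plane
import Pool.Agent.Zombie.Plane2
import Pool.Agent.Zombie.Torus
import Pool.Agent.Zombie.Game

/-!
# The zombie number of the toroidal grid is `O(n^{3/2})`
-/

namespace Pool.Agent.Zombie

open Finset

theorem survStart_nonneg {V : Type*} [Fintype V] (G : SimpleGraph V) (k t : ℕ) :
    0 ≤ survStart G k t := by
  unfold survStart
  exact div_nonneg (Finset.sum_nonneg (fun z _ => Real.iSup_nonneg (fun v =>
    surv_nonneg G t z v))) (by positivity)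

/-- If every path of length `t` is caught from at least `S` starting points, the optimal survival
probability is at most `n² 5^t exp(-S k / n²)`. -/
theorem survStart_le {n : ℕ} [NeZero n] (hn : 3 ≤ n) {k t : ℕ} {S : ℝ} (ht : 6 * t < n)
    (hS : ∀ γ : List (Fin 5), γ.length = t → S ≤ SS (2 * γ.length) (H γ)) :
    survStart (torus n) k t ≤ (n : ℝ) ^ 2 * 5 ^ t * Real.exp (-(S * k / (n : ℝ) ^ 2)) := by
  have hn0 : (0 : ℝ) < n := by
    have : 0 < n := by omega
    exact_mod_cast this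
  have hn2 : (0 : ℝ) < (n : ℝ) ^ 2 := by positivity
  have hcard : (Fintype.card (ZMod n × ZMod n) : ℝ) = (n : ℝ) ^ 2 := by
    rw [Fintype.card_prod, ZMod.card]
    push_cast
    ring
  have hq : ∀ (γ : Fin t → Fin 5) (v : ZMod n × ZMod n),
      ∑ u, q n (List.ofFn γ) v u ≤ (n : ℝ) ^ 2 - S := by
    intro γ v
    have h1 := sum_q_le hn (List.ofFn γ) (by rw [List.length_ofFn]; exact ht) v
    have h2 := hS (List.ofFn γ) (List.length_ofFn)
    linarith
  have hq0 : ∀ (γ : Fin t → Fin 5) (v : ZMod n × ZMod n),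
      0 ≤ ∑ u, q n (List.ofFn γ) v u := fun γ v =>
    Finset.sum_nonneg (fun u _ => (q_mem _ _ _).1)
  have h1 : ∑ z : Fin k → ZMod n × ZMod n, ⨆ v, surv (torus n) t z v ≤
      (n : ℝ) ^ 2 * 5 ^ t * ((n : ℝ) ^ 2 - S) ^ k := by
    calc ∑ z : Fin k → ZMod n × ZMod n, ⨆ v, surv (torus n) t z v
        ≤ ∑ z : Fin k → ZMod n × ZMod n, ∑ v : ZMod n × ZMod n, ∑ γ : Fin t → Fin 5,
            ∏ i, q n (List.ofFn γ) v (z i) := by
          refine Finset.sum_le_sum (fun z _ => ciSup_le (fun v => ?_))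
          refine le_trans (surv_le hn t z v) ?_
          exact Finset.single_le_sum (f := fun v => ∑ γ : Fin t → Fin 5,
            ∏ i, q n (List.ofFn γ) v (z i)) (fun v _ => Finset.sum_nonneg (fun γ _ =>
              Finset.prod_nonneg (fun i _ => (q_mem _ _ _).1))) (Finset.mem_univ v)
      _ = ∑ v : ZMod n × ZMod n, ∑ γ : Fin t → Fin 5,
            (∑ u, q n (List.ofFn γ) v u) ^ k := by
          rw [Finset.sum_comm]
          refine Finset.sum_congr rfl (fun v _ => ?_)
          rw [Finset.sum_comm]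
          refine Finset.sum_congr rfl (fun γ _ => ?_)
          rw [Fintype.sum_pow]
      _ ≤ ∑ _v : ZMod n × ZMod n, ∑ _γ : Fin t → Fin 5, ((n : ℝ) ^ 2 - S) ^ k := by
          refine Finset.sum_le_sum (fun v _ => Finset.sum_le_sum (fun γ _ => ?_))
          exact pow_le_pow_left₀ (hq0 γ v) (hq γ v) k
      _ = _ := by
          rw [Finset.sum_const, Finset.sum_const, Finset.card_univ, Finset.card_univ,
            nsmul_eq_mul, nsmul_eq_mul, hcard]
          simp only [Fintype.card_pi, Fintype.card_fin, Finset.prod_const, Finset.card_univ]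
          push_cast
          ring
  have hS2 : 0 ≤ (n : ℝ) ^ 2 - S := by
    have h2 := hq (fun _ => 0) 0
    have h3 := hq0 (fun _ => 0) 0
    linarith
  unfold survStart
  rw [hcard]
  calc (∑ z : Fin k → ZMod n × ZMod n, ⨆ v, surv (torus n) t z v) / ((n : ℝ) ^ 2) ^ k
      ≤ ((n : ℝ) ^ 2 * 5 ^ t * ((n : ℝ) ^ 2 - S) ^ k) / ((n : ℝ) ^ 2) ^ k :=
        div_le_div_of_nonneg_right h1 (by positivity)
    _ = (n : ℝ) ^ 2 * 5 ^ t * (1 - S / (n : ℝ) ^ 2) ^ k := by
        rw [mul_div_assoc, ← div_pow, sub_div, div_self hn2.ne']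
    _ ≤ (n : ℝ) ^ 2 * 5 ^ t * (Real.exp (-(S / (n : ℝ) ^ 2))) ^ k := by
        apply mul_le_mul_of_nonneg_left _ (by positivity)
        apply pow_le_pow_left₀
        · rw [sub_nonneg, div_le_one hn2]
          linarith
        · exact Real.one_sub_le_exp_neg _
    _ = _ := by
        rw [← Real.exp_nat_mul]
        congr 2
        ring

theorem winProb_le_of {V : Type*} [Fintype V] {G : SimpleGraph V} {k t : ℕ}
    (h : survStart G k t ≤ 1 / 2) : winProb G k ≤ 1 / 2 := by
  refine le_trans (ciInf_le ?_ t) h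
  exact ⟨0, by rintro x ⟨t, rfl⟩; exact survStart_nonneg G k t⟩

theorem real_small {x y : ℝ} (hx : 1 ≤ x) (hx6 : x ≤ 6) (hy : 128 * Real.sqrt x / x ≤ y) :
    x ^ 2 * Real.exp (-y) ≤ 1 / 2 := by
  have hs : 0 < Real.sqrt x := Real.sqrt_pos.2 (by linarith)
  have hsq : Real.sqrt x * Real.sqrt x = x := Real.mul_self_sqrt (by linarith)
  have h1 : 40 ≤ 128 * Real.sqrt x / x := by
    rw [le_div_iff₀ (by linarith)]
    have h2 : Real.sqrt x ≤ 3 := by
      rw [Real.sqrt_le_left (by norm_num)]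
      linarith
    nlinarith
  have h2 : 40 ≤ y := h1.trans hy
  have h3 : 1 + y + y ^ 2 / 2 ≤ Real.exp y := Real.quadratic_le_exp_of_nonneg (by linarith)
  have h4 : 72 ≤ Real.exp y := by nlinarith
  rw [Real.exp_neg, ← div_eq_mul_inv, div_le_iff₀ (by positivity)]
  nlinarith

theorem real_large {x T y : ℝ} (hT : 1 ≤ T) (hx : 0 < x) (hxT : x ≤ 12 * T) {t : ℕ}
    (ht : (t : ℝ) = T) (hy : 32 * T * Real.sqrt T / Real.sqrt x ≤ y) :
    x ^ 2 * 5 ^ t * Real.exp (-y) ≤ 1 / 2 := by
  have hs : 0 < Real.sqrt x := Real.sqrt_pos.2 hx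
  have hsT : 0 < Real.sqrt T := Real.sqrt_pos.2 (by linarith)
  have h1 : 9 * T ≤ y := by
    refine le_trans ?_ hy
    rw [le_div_iff₀ hs]
    have h2 : Real.sqrt x ≤ 3.5 * Real.sqrt T := by
      rw [Real.sqrt_le_left (by positivity)]
      have : (3.5 * Real.sqrt T) ^ 2 = 12.25 * T := by
        rw [mul_pow, Real.sq_sqrt (by linarith)]
        norm_num
      rw [this]
      linarith
    have h3 : 9 * T * Real.sqrt x ≤ 9 * T * (3.5 * Real.sqrt T) :=
      mul_le_mul_of_nonneg_left h2 (by linarith)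
    have h4 : 0 ≤ T * Real.sqrt T := by positivity
    linarith
  have hexp1 : (2.7 : ℝ) < Real.exp 1 := by
    have := Real.exp_one_gt_d9
    linarith
  -- `x² ≤ 144 T²`, `T ≤ exp (T - 1)`, `5 ≤ exp 2`
  have h2 : T ≤ Real.exp (T - 1) := by
    have := Real.add_one_le_exp (T - 1)
    linarith
  have h3 : x ^ 2 ≤ 144 * Real.exp (T - 1) ^ 2 := by
    have h4 : x ≤ 12 * Real.exp (T - 1) := by linarith
    have h5 : x ^ 2 ≤ (12 * Real.exp (T - 1)) ^ 2 := pow_le_pow_left₀ hx.le h4 2
    calc x ^ 2 ≤ (12 * Real.exp (T - 1)) ^ 2 := h5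
      _ = _ := by ring
  have h5 : (5 : ℝ) ≤ Real.exp 2 := by
    have : Real.exp 2 = Real.exp 1 * Real.exp 1 := by rw [← Real.exp_add]; norm_num
    rw [this]
    nlinarith
  have h6 : (5 : ℝ) ^ t ≤ Real.exp (2 * T) := by
    calc (5 : ℝ) ^ t ≤ (Real.exp 2) ^ t := pow_le_pow_left₀ (by norm_num) h5 t
      _ = Real.exp (2 * T) := by
        rw [← Real.exp_nat_mul, ht]
        congr 1
        ring
  have h7 : (288 : ℝ) ≤ Real.exp 6 := by
    have h8 : Real.exp 6 = Real.exp 1 ^ 6 := by rw [← Real.exp_nat_mul]; norm_num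
    rw [h8]
    calc (288 : ℝ) ≤ 2.7 ^ 6 := by norm_num
      _ ≤ _ := pow_le_pow_left₀ (by norm_num) hexp1.le 6
  have h8 : x ^ 2 * 5 ^ t ≤ (144 * Real.exp (T - 1) ^ 2) * Real.exp (2 * T) :=
    mul_le_mul h3 h6 (by positivity) (by positivity)
  have h9 : Real.exp (T - 1) ^ 2 * Real.exp (2 * T) = Real.exp (4 * T - 2) := by
    rw [← Real.exp_nat_mul, ← Real.exp_add]
    congr 1
    push_cast
    ring
  have h10 : x ^ 2 * 5 ^ t * Real.exp (-y) ≤ 144 * Real.exp (4 * T - 2) * Real.exp (-y) := by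
    apply mul_le_mul_of_nonneg_right _ (Real.exp_pos _).le
    calc x ^ 2 * 5 ^ t ≤ (144 * Real.exp (T - 1) ^ 2) * Real.exp (2 * T) := h8
      _ = 144 * (Real.exp (T - 1) ^ 2 * Real.exp (2 * T)) := by ring
      _ = _ := by rw [h9]
  refine le_trans h10 ?_
  have h11 : Real.exp 6 * (Real.exp (4 * T - 2) * Real.exp (-y)) ≤ 1 := by
    rw [← Real.exp_add, ← Real.exp_add, ← Real.exp_zero]
    apply Real.exp_le_exp.2
    linarith
  have h12 : 0 < Real.exp (4 * T - 2) * Real.exp (-y) := by positivity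
  nlinarith

/-- Some `k ≤ 129 n √n` zombies win with probability at least `1/2`. -/
theorem exists_winProb_le {n : ℕ} [NeZero n] (hn : 3 ≤ n) :
    ∃ k : ℕ, (k : ℝ) ≤ 129 * n * Real.sqrt n ∧ winProb (torus n) k ≤ 1 / 2 := by
  have hn0 : (3 : ℝ) ≤ n := by exact_mod_cast hn
  have hs1 : 1 ≤ Real.sqrt n := by
    rw [Real.one_le_sqrt]
    linarith
  have hsq : Real.sqrt n * Real.sqrt n = n := Real.mul_self_sqrt (by linarith)
  set k := ⌈128 * (n : ℝ) * Real.sqrt n⌉₊ with hk
  have hk1 : 128 * (n : ℝ) * Real.sqrt n ≤ k := Nat.le_ceil _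
  have hk2 : (k : ℝ) < 128 * (n : ℝ) * Real.sqrt n + 1 := Nat.ceil_lt_add_one (by positivity)
  have hmain : winProb (torus n) k ≤ 1 / 2 := by
    by_cases h7 : 7 ≤ n
    · set T := (n - 1) / 6 with hT
      have hT1 : 1 ≤ T := by omega
      have hT2 : 6 * T < n := by omega
      have hT3 : n ≤ 12 * T := by omega
      apply winProb_le_of (t := T)
      have hS : ∀ γ : List (Fin 5), γ.length = T →
          (T : ℝ) * Real.sqrt T / 4 ≤ SS (2 * γ.length) (H γ) := by
        intro γ hγ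
        have := SS_final γ
        rwa [hγ] at this ⊢
      refine le_trans (survStart_le hn hT2 hS) ?_
      have hTR : (1 : ℝ) ≤ T := by exact_mod_cast hT1
      apply real_large (T := (T : ℝ)) hTR (by linarith) (by exact_mod_cast hT3) rfl
      have hx : (0 : ℝ) < n := by linarith
      have hsn : 0 < Real.sqrt n := by linarith
      have h1 : (0 : ℝ) ≤ T * Real.sqrt T := by positivity
      rw [div_le_div_iff₀ hsn (by positivity)]
      calc 32 * (T : ℝ) * Real.sqrt T * (n : ℝ) ^ 2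
          = (T : ℝ) * Real.sqrt T / 4 * (128 * (n : ℝ) * Real.sqrt n) * Real.sqrt n := by
            have : (n : ℝ) ^ 2 = n * (Real.sqrt n * Real.sqrt n) := by rw [hsq]; ring
            rw [this]
            ring
        _ ≤ (T : ℝ) * Real.sqrt T / 4 * k * Real.sqrt n := by
            apply mul_le_mul_of_nonneg_right _ hsn.le
            apply mul_le_mul_of_nonneg_left hk1
            positivity
    · apply winProb_le_of (t := 0)
      have hS : ∀ γ : List (Fin 5), γ.length = 0 → (1 : ℝ) ≤ SS (2 * γ.length) (H γ) := by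
        intro γ hγ
        have h1 : γ = [] := List.length_eq_zero_iff.1 hγ
        subst h1
        simp [SS, bs_zero, H]
      refine le_trans (survStart_le hn (by omega) hS) ?_
      rw [pow_zero, mul_one]
      apply real_small (by linarith)
      · have : n ≤ 6 := by omega
        exact_mod_cast this
      · have hx : (0 : ℝ) < n := by linarith
        rw [one_mul, div_le_div_iff₀ hx (by positivity)]
        calc 128 * Real.sqrt n * (n : ℝ) ^ 2 = (128 * (n : ℝ) * Real.sqrt n) * n := by ring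
          _ ≤ k * n := mul_le_mul_of_nonneg_right hk1 hx.le
  exact ⟨k, by nlinarith, hmain⟩

end Pool.Agent.Zombie
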